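import Pool.Agent.Q213.PM.Stm

/-!
# Project PM (helper213), job AX
-/

set_option autoImplicit false

universe u

open CategoryTheory Opposite
open Pool.Agent.Q213.PM

namespace Pool.Agent.Q25.PM

/-- finite powers of `Bool` -/
def TN : ℕ → Type u
  | 0 => PUnit.{u + 1}
  | n + 1 => TN n × ULift.{u} Bool

/-- a point of the power -/
def ptN : ∀ n : ℕ, TN.{u} n
  | 0 => PUnit.unit
  | n + 1 => (ptN n, ⟨false⟩)

/-- the objects `(d, n)` -/
structure Ob (D : Type u) : Type u where
  d : D
  n : ℕ

variable {D : Type u} [SmallCategory D]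

/-- the maps -/
@[ext]
structure OHom (x y : Ob D) : Type u where
  f : x.d ⟶ y.d
  g : TN.{u} x.n → TN.{u} y.n

instance : SmallCategory (Ob D) where
  Hom x y := OHom x y
  id x := ⟨𝟙 _, id⟩
  comp a b := ⟨a.f ≫ b.f, b.g ∘ a.g⟩
  id_comp a := OHom.ext (Category.id_comp _) rfl
  comp_id a := OHom.ext (Category.comp_id _) rfl
  assoc a b c := OHom.ext (Category.assoc _ _ _) rfl

/-- the interval presheaf -/
def IP (D : Type u) [SmallCategory D] : (Ob D)ᵒᵖ ⥤ Type u where
  obj x := TN.{u} x.unop.n → ULift.{u} Bool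
  map f := TypeCat.ofHom fun t => t ∘ (OHom.g f.unop)
  map_id _ := rfl
  map_comp _ _ := rfl

/-- the product with the interval -/
def omN (D : Type u) [SmallCategory D] : Ob D ⥤ Ob D where
  obj x := ⟨x.d, x.n + 1⟩
  map f := ⟨f.f, fun z => (f.g z.1, z.2)⟩
  map_id _ := rfl
  map_comp _ _ := rfl

/-- the interval -/
def itv (D : Type u) [SmallCategory D] : Itv (Ob D) where
  I := IP D
  zero _ := fun _ => ⟨false⟩
  one _ := fun _ => ⟨true⟩
  map_zero _ := rfl
  map_one _ := rfl
  ne a h := by
    have h1 := congrArg (fun t : TN.{u} a.n → ULift.{u} Bool => (t (ptN a.n)).down) h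
    exact Bool.false_ne_true h1
  sup s t := fun x => ⟨(s x).down || (t x).down⟩
  map_sup _ _ _ := rfl
  sup_zero s := by
    funext x
    exact ULift.ext _ _ (Bool.or_false _)
  sup_one s := by
    funext x
    exact ULift.ext _ _ (Bool.or_true _)
  one_sup s := by
    funext x
    exact ULift.ext _ _ (Bool.true_or (s x).down)
  om := omN D
  pi := { app := fun x => ⟨𝟙 _, Prod.fst⟩
          naturality := fun _ _ f => OHom.ext ((Category.comp_id _).trans (Category.id_comp _).symm) rfl }
  tau _ := fun z => z.2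
  map_tau _ := rfl
  sec _ t := ⟨𝟙 _, fun x => (x, t x)⟩
  sec_pi _ _ := OHom.ext (Category.comp_id _) rfl
  sec_tau _ _ := rfl
  sec_nat _ _ := OHom.ext ((Category.id_comp _).trans (Category.comp_id _).symm) rfl

theorem ax : S_AX.{u} := by
  intro D _
  let F : D ⥤ Ob D :=
    { obj := fun d => ⟨d, 0⟩
      map := fun f => ⟨f, id⟩
      map_id := fun _ => rfl
      map_comp := fun _ _ => rfl }
  let G : Ob D ⥤ D :=
    { obj := fun x => x.d
      map := fun f => f.f
      map_id := fun _ => rfl
      map_comp := fun _ _ => rfl }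
  refine ⟨Ob D, inferInstance, itv D, F, G, ?_, ?_⟩
  · exact Zigzag.of_hom
      { app := fun d => 𝟙 d
        naturality := fun _ _ f => (Category.comp_id _).trans (Category.id_comp _).symm }
  · exact Zigzag.of_inv
      { app := fun x => ⟨𝟙 _, fun _ => PUnit.unit⟩
        naturality := fun _ _ f => OHom.ext ((Category.comp_id _).trans (Category.id_comp _).symm) rfl }

end Pool.Agent.Q25.PM
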