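import Pool.Agent.Q213.PM.Stm

/-!
# Project PM (helper213), job SH
-/

set_option autoImplicit false

universe u

open CategoryTheory Limits Opposite Simplicial HomotopicalAlgebra MonoidalCategory
open Pool.Agent.Q213.PM

namespace Pool.Agent.Q25.PM

variable {A : Type u} [SmallCategory A]

theorem map_sq (E : Aᵒᵖ ⥤ Type u) {a b c d : A} (f : a ⟶ b) (g : b ⟶ d) (f' : a ⟶ c) (g' : c ⟶ d)
    (h : f ≫ g = f' ≫ g') (x : E.obj (op d)) :
    E.map f.op (E.map g.op x) = E.map f'.op (E.map g'.op x) := by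
  have h1 : E.map g.op ≫ E.map f.op = E.map g'.op ≫ E.map f'.op := by
    rw [← E.map_comp, ← E.map_comp, ← op_comp, ← op_comp, h]
  exact congrArg (fun k => (ConcreteCategory.hom k) x) h1

/-- the functor `(a, x) ↦ (om a, h (pi^* x) (tau a))` -/
def TT (J : Itv A) {E : Aᵒᵖ ⥤ Type u}
    (h : ∀ a : A, E.obj (op a) → J.I.obj (op a) → E.obj (op a))
    (hn : ∀ {a b : A} (f : a ⟶ b) (x : E.obj (op b)) (t : J.I.obj (op b)),
      E.map f.op (h b x t) = h a (E.map f.op x) (J.I.map f.op t)) : El E ⥤ El E where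
  obj y := ⟨J.om.obj y.pt, h _ (E.map (J.pi.app y.pt).op y.el) (J.tau y.pt)⟩
  map {x y} f := ⟨J.om.map f.f, by
    rw [hn, J.map_tau, ← f.w]
    congr 1
    exact map_sq E (J.om.map f.f) (J.pi.app y.pt) (J.pi.app x.pt) f.f (J.pi.naturality f.f) y.el⟩
  map_id x := El.Hom.ext (J.om.map_id _)
  map_comp f g := El.Hom.ext (J.om.map_comp _ _)

theorem sh (hZR : S_ZR.{u}) : S_SH.{u} := by
  intro A _ J E B p hp hB
  obtain ⟨s, h, hsp, hn, h0, h1, hpp⟩ := hp
  have key : ∀ (y : El E) (t : J.I.obj (op y.pt)),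
      E.map (J.sec y.pt t).op (h _ (E.map (J.pi.app y.pt).op y.el) (J.tau y.pt)) = h _ y.el t := by
    intro y t
    rw [hn, J.sec_tau]
    congr 1
    have h2 := congrArg (fun k => E.map k.op y.el) (J.sec_pi y.pt t)
    simpa using h2
  let T := TT J h hn
  have ν : 𝟭 (El E) ⟶ T := 
    { app := fun y => ⟨J.sec y.pt (J.zero y.pt), by
        refine (key y _).trans ?_
        exact h0 _ _⟩
      naturality := by
        intro x y f
        apply El.Hom.ext
        have h2 := J.sec_nat f.f (J.zero y.pt)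
        rw [J.map_zero] at h2
        exact h2.symm }
  have μ : El.map p ⋙ El.map s ⟶ T := 
    { app := fun y => ⟨J.sec y.pt (J.one y.pt), by
        refine (key y _).trans ?_
        exact h1 _ _⟩
      naturality := by
        intro x y f
        apply El.Hom.ext
        have h2 := J.sec_nat f.f (J.one y.pt)
        rw [J.map_one] at h2
        exact h2.symm }
  exact hZR (El.map s) (El.map p) (Zigzag.of_hom_inv μ ν) hB

theorem shp (_ : S_ZR.{u}) : S_SHP.{u} := by
  intro A _ J E B B' P p g g' p' hpb hp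
  obtain ⟨s, h, hsp, hn, h0, h1, hpp⟩ := hp
  -- elements of the pullback
  have hel : ∀ a : A, IsPullback (g'.app (op a)) (p'.app (op a)) (p.app (op a)) (g.app (op a)) :=
    fun a => hpb.map ((evaluation Aᵒᵖ (Type u)).obj (op a))
  have hext : ∀ (a : A) (x y : P.obj (op a)), g'.app _ x = g'.app _ y → p'.app _ x = p'.app _ y →
      x = y := fun a x y h h' => Types.ext_of_isPullback (hel a) h h'
  -- the section
  have hs : (g ≫ s) ≫ p = 𝟙 B' ≫ g := by rw [Category.assoc, hsp]; simp
  let s' : B' ⟶ P := hpb.lift (g ≫ s) (𝟙 B') hs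
  have hs1 : s' ≫ g' = g ≫ s := hpb.lift_fst _ _ _
  have hs2 : s' ≫ p' = 𝟙 B' := hpb.lift_snd _ _ _
  have hw : ∀ (a : A) (x : P.obj (op a)), p.app _ (g'.app _ x) = g.app _ (p'.app _ x) := by
    intro a x
    have := congrArg (fun k => k x) (hel a).w
    simpa using this
  have hex : ∀ (a : A) (x : P.obj (op a)) (t : J.I.obj (op a)), ∃ z : P.obj (op a),
      g'.app _ z = h a (g'.app _ x) t ∧ p'.app _ z = p'.app _ x := by
    intro a x t
    obtain ⟨z, hz1, hz2⟩ := Types.exists_of_isPullback (hel a) (h a (g'.app _ x) t) (p'.app _ x)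
      (by rw [hpp, hw])
    exact ⟨z, hz1, hz2⟩
  choose h' hh1 hh2 using hex
  have nat_g : ∀ {a b : A} (f : a ⟶ b) (x : P.obj (op b)), g'.app _ (P.map f.op x) =
      E.map f.op (g'.app _ x) := by
    intro a b f x
    have := congrArg (fun k => k x) (g'.naturality f.op)
    simpa using this
  have nat_p : ∀ {a b : A} (f : a ⟶ b) (x : P.obj (op b)), p'.app _ (P.map f.op x) =
      B'.map f.op (p'.app _ x) := by
    intro a b f x
    have := congrArg (fun k => k x) (p'.naturality f.op)
    simpa using this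
  refine ⟨s', h', hs2, ?_, ?_, ?_, hh2⟩
  · intro a b f x t
    apply hext
    · rw [nat_g, hh1, hh1, hn, nat_g]
    · rw [nat_p, hh2, hh2, nat_p]
  · intro a x
    apply hext
    · rw [hh1, h0]
    · rw [hh2]
  · intro a x
    apply hext
    · rw [hh1, h1, hw]
      have := congrArg (fun k => k.app (op a) (p'.app _ x)) hs1
      simpa using this.symm
    · rw [hh2]
      have := congrArg (fun k => k.app (op a) (p'.app _ x)) hs2
      simpa using this.symm

end Pool.Agent.Q25.PM
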