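import Pool.Agent.Q213.PM.Stm

/-!
# Project PM (helper213), job ZR
-/

set_option autoImplicit false

universe u

open CategoryTheory Limits Opposite Simplicial
open Pool.Agent.Q213.PM

namespace Pool.Agent.Q25.PM

theorem eqv_of_zigzag (hNAT : S_NAT.{u}) {X Y : Type u} [SmallCategory X] [SmallCategory Y]
    (F G : X ⥤ Y) (h : Zigzag F G) : Relation.EqvGen Hpc (nerveMap F) (nerveMap G) := by
  induction h with
  | refl => exact Relation.EqvGen.refl _
  | tail _ hz ih =>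
    refine Relation.EqvGen.trans _ _ _ ih ?_
    rcases hz with ⟨⟨α⟩⟩ | ⟨⟨α⟩⟩
    · exact Relation.EqvGen.rel _ _ (hNAT _ _ α)
    · exact Relation.EqvGen.symm _ _ (Relation.EqvGen.rel _ _ (hNAT _ _ α))

theorem zr (hNAT : S_NAT.{u}) (hRET : S_RET.{u}) (_hHEW : S_HEW.{u}) (_hSTD : S_STD.{u}) :
    S_ZR.{u} := by
  intro X Y _ _ F G h hX
  exact hRET (nerveMap F) (nerveMap G) (eqv_of_zigzag hNAT _ _ h) hX

theorem zw (hNAT : S_NAT.{u}) (_hRET : S_RET.{u}) (hHEW : S_HEW.{u}) (_hSTD : S_STD.{u}) :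
    S_ZW.{u} := by
  intro X Y _ _ F G h1 h2
  exact hHEW (nerveMap F) (nerveMap G) (eqv_of_zigzag hNAT _ _ h1) (eqv_of_zigzag hNAT _ _ h2)

theorem contr_pt (hRET : S_RET.{u}) (hSTD : S_STD.{u}) :
    Contr (nerve (Discrete PUnit.{u + 1})) := by
  let f : (Δ[0] : SSet.{u}) ⟶ nerve (Discrete PUnit.{u + 1}) :=
    SSet.yonedaEquiv.symm (ComposableArrows.mk₀ (Discrete.mk PUnit.unit))
  let g : nerve (Discrete PUnit.{u + 1}) ⟶ (Δ[0] : SSet.{u}) := SSet.stdSimplex.isTerminalObj₀.from _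
  refine hRET f g ?_ (hSTD 0)
  have h : g ≫ f = 𝟙 _ := by
    ext n x
  rw [h]
  exact Relation.EqvGen.refl _

theorem term (hNAT : S_NAT.{u}) (hRET : S_RET.{u}) (hHEW : S_HEW.{u}) (hSTD : S_STD.{u}) :
    S_TERM.{u} := by
  intro X _ t ht
  refine zr hNAT hRET hHEW hSTD (Functor.fromPUnit t) (Functor.star X) ?_ (contr_pt hRET hSTD)
  exact Zigzag.of_inv
    { app := fun x => ht.from x
      naturality := fun _ _ _ => ht.hom_ext _ _ }

theorem rep (hNAT : S_NAT.{u}) (hRET : S_RET.{u}) (hHEW : S_HEW.{u}) (hSTD : S_STD.{u}) :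
    S_REP.{u} := by
  intro A _ a
  refine term hNAT hRET hHEW hSTD (⟨a, 𝟙 a⟩ : El (yoneda.obj a)) ?_
  exact IsTerminal.ofUniqueHom (fun x => ⟨x.el, Category.comp_id _⟩) (fun x m => El.Hom.ext (by
    have h := m.w
    exact (Category.comp_id _).symm.trans h))

end Pool.Agent.Q25.PM
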